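import Pool.Agent.Helper72.LSr.NumDef
import Pool.Agent.Helper21.LSR.Num

/-!
# Numerical lemmas LR-F1 .. LR-F4, from `Pool.Agent.Helper21.LSR.Num`
-/

namespace Pool.Agent.Helper21.LSr

open Pool.Agent.Helper72.LSr

variable {k M X D Y ρ mm : ℤ}

theorem toND (h : NumH k M X D Y ρ mm) :
    LSR.ND k M X D Y (D - Y) ρ (max (-ρ) 0) mm (D - Y - ρ - mm) (mm + (1 - X) * D - Y - ρ) := by
  obtain ⟨hk, hD, hX, hY, he, hc, hm, hZ, hJ⟩ := h
  refine ⟨hk, hD, by ring, hX, rfl, hY, by linarith, rfl, hZ, hm, rfl, ?_, hJ, hc⟩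
  rcases hc with h | h <;> omega

theorem two_le_k (h : NumH k M X D Y ρ mm) : 2 ≤ k := by
  have h1 := (toND h).cases
  have h2 := h.hY
  have h3 : 0 ≤ max (-ρ) 0 := le_max_right _ _
  rcases h1 with h1 | h1 <;> omega

theorem far1 (h : NumH k M X D Y ρ mm) (Du : ℤ) (hDu : M + 2 ≤ 2 * Du) :
    (k + 1) * (Y * (D - Y - ρ - mm) - max (-ρ) 0 * D) ≤ (k + 1) * Y * Du + k * (Du - 1) * D := by
  have := LSR.far1 (toND h) hDu
  linarith

theorem far2 (h : NumH k M X D Y ρ mm) (Du : ℤ) (hDu : M + 1 ≤ Du) :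
    (k + 1) * (Y * (D - Y - ρ - mm) - max (-ρ) 0 * D) ≤ (k + 1) * Y * Du + k * (Du - 2) * D := by
  have := LSR.far2 (toND h) hDu
  linarith

theorem c3 (h : NumH k M X D Y ρ mm) :
    (k + 1) * (Y * (D - Y - ρ - mm) - max (-ρ) 0 * D) ≤ k * D * (D - Y) :=
  LSR.c3 (toND h)

theorem xm1 (h : NumH k M X D Y ρ mm)
    (h0 : 0 < k * X * Y * D + (2 * k + 3) * Y * (D - Y - ρ - mm) - (3 * k + 3) * max (-ρ) 0 * D) :
    -1 ≤ X :=
  LSR.xm1 (toND h) h0

theorem nc4 (h : NumH k M X D Y ρ mm) (hX : -1 ≤ X) :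
    k * D * (k + 1 - D) +
      (k * X * Y * D + (2 * k + 3) * Y * (D - Y - ρ - mm) - (3 * k + 3) * max (-ρ) 0 * D)
      ≤ k * D * (4 * (D - Y) + 1) := by
  have hN := toND h
  have hs := LSR.star hN
  have hk := hN.hk
  have h3 : 0 ≤ max (-ρ) 0 := le_max_right _ _
  have hY1 : 1 ≤ Y := by have := h.hY; linarith
  have he := h.hε
  have hD : 0 < D := by linarith
  have hkD : 0 < k * D := by positivity
  have hJ : k * D * (k + 1 - D) ≤ k * D * (mm + (1 - X) * D - Y - ρ) :=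
    mul_le_mul_of_nonneg_left h.hJ hkD.le
  have hxe : 0 ≤ k * D * ((1 + X) * (D - Y)) := by
    apply mul_nonneg hkD.le
    apply mul_nonneg <;> linarith
  nlinarith

theorem fF (h : NumH k M X D Y ρ mm) (_hX : -1 ≤ X) :
    k * X * Y * D + 3 * (k + 1) * Y * (D - Y - ρ - mm) - (4 * k + 3) * max (-ρ) 0 * D
      ≤ k * (D - 1) * D :=
  LSR.F (toND h)

theorem h1 (h : NumH k M X D Y ρ mm) (hX : X = 1) :
    (2 * k + 3) * Y * (D - Y - ρ - mm) - (3 * k + 3) * max (-ρ) 0 * D ≤ k * (D - Y - 1) * D :=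
  LSR.h1 (toND h) hX

theorem h2 (h : NumH k M X D Y ρ mm) (hX : X = 1) :
    k * Y * D + (2 * k + 3) * Y * (D - Y - ρ - mm) - (3 * k + 3) * max (-ρ) 0 * D
      ≤ 2 * k * D * (D - Y) := by
  have := LSR.h2 (toND h) hX
  linarith

theorem h3 (h : NumH k M X D Y ρ mm) (hX : X = 1) :
    k * D * (k + 1 - D) +
      (k * Y * D + (2 * k + 3) * Y * (D - Y - ρ - mm) - (3 * k + 3) * max (-ρ) 0 * D)
      ≤ k * D * (2 * (D - Y) + 1) := by
  have hN := toND h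
  have hs := LSR.star hN
  have hk := hN.hk
  have h3 : 0 ≤ max (-ρ) 0 := le_max_right _ _
  have hY1 : 1 ≤ Y := by have := h.hY; linarith
  have he := h.hε
  have hD : 0 < D := by linarith
  have hkD : 0 < k * D := by positivity
  have hJ : k * D * (k + 1 - D) ≤ k * D * (mm + (1 - X) * D - Y - ρ) :=
    mul_le_mul_of_nonneg_left h.hJ hkD.le
  rw [hX] at hJ
  nlinarith

theorem mm_le (h : NumH k M X D Y ρ mm) : mm ≤ k := LSR.mmk (toND h)

end Pool.Agent.Helper21.LSr
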